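import Pool.Agent.helper6.EV.Spec

set_option autoImplicit false

namespace Pool.Agent.EV

open N1f72dd46 Filter MeasureTheory Complex Metric Pool.Agent.helper6.LD

theorem TH (hRB : RB_stmt) (hPS1 : PS1_stmt) : TH_stmt := by
  rintro ⟨θ0, hθ0, hz⟩
  set θ : ℝ := max θ0 (1 / 2) with hθdef
  have hθ1 : 1 / 2 ≤ θ := le_max_right _ _
  have hθ2 : θ < 1 := max_lt hθ0 (by norm_num)
  have hz' : ∀ s : ℂ, θ < s.re → riemannZeta s ≠ 0 := fun s hs =>
    hz s (lt_of_le_of_lt (le_max_left _ _) hs)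
  set σ : ℝ := (θ + 1) / 2 with hσdef
  have hσ1 : θ < σ := by rw [hσdef]; linarith
  have hσ2 : σ < 1 := by rw [hσdef]; linarith
  obtain ⟨C, hC, hR⟩ := hRB θ σ hθ1 hσ1 hσ2 hz'
  obtain ⟨C', hC', h⟩ := hPS1 σ C (by linarith) hσ2 hC hR
  obtain ⟨D, hD⟩ := Chebyshev.psi_sub_theta_le_mul_sqrt
  refine ⟨(1 + σ) / 2, C' + |D|, by linarith, by linarith, by positivity, ?_⟩
  intro y hy
  have h1 := h y hy
  have h2 := hD y
  have h3 := Chebyshev.theta_le_psi y
  have h4 : √y ≤ y ^ ((1 + σ) / 2) := by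
    rw [Real.sqrt_eq_rpow]
    exact Real.rpow_le_rpow_of_exponent_le hy (by linarith)
  have h5 : 0 ≤ √y := Real.sqrt_nonneg y
  have h6 : D * √y ≤ |D| * y ^ ((1 + σ) / 2) :=
    le_trans (mul_le_mul_of_nonneg_right (le_abs_self D) h5)
      (mul_le_mul_of_nonneg_left h4 (abs_nonneg D))
  have h7 : Chebyshev.theta y - y = (Chebyshev.psi y - y) - (Chebyshev.psi y - Chebyshev.theta y) := by
    ring
  rw [h7, add_mul]
  refine (abs_sub _ _).trans (add_le_add h1 ?_)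
  rw [abs_of_nonneg (by linarith)]
  exact h2.trans h6

end Pool.Agent.EV
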